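import Pool.Agent.R91.FA.Free

/-!
# MP_158617_an, Q1 (answer: yes)

The Lipschitz free space of every bounded turning Jordan arc is isomorphic to an `L¹` space.
-/

set_option autoImplicit false

namespace Pool.Agent.Results.MP_158617_an.FreeSpaceOfArc

open MeasureTheory Pool.Agent.H266R3.LF

/-- Let `X` be a Jordan arc (`e` a homeomorphism onto `[0,1]`) with bounded turning constant `C`:
the subarc with end points `x` and `y`, which is `e.symm '' [e x, e y]`, has diameter at most
`C * dist x y`. Then the Lipschitz free space `FreeSp X x₀` (the closed linear span of the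
evaluations in the dual of `Lip₀(X)`) is isomorphic to `L¹(Z, μ)` for some measure space. -/
theorem result (X : Type) [MetricSpace X] (e : X ≃ₜ unitInterval) (C : ℝ)
    (hC : ∀ x y : X, Metric.diam (e.symm '' Set.uIcc (e x) (e y)) ≤ C * dist x y) (x₀ : X) :
    ∃ (Z : Type) (_ : MeasurableSpace Z) (μ : Measure Z),
      Nonempty (FreeSp X x₀ ≃L[ℝ] Lp ℝ 1 μ) :=
  Pool.Agent.R91.FA.free_arc e C hC x₀

end Pool.Agent.Results.MP_158617_an.FreeSpaceOfArc
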